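import Mathlib

/-!
# The Euler Sombor index of chemical unicyclic graphs: definitions
-/

namespace Pool.Agent.R866.EUS

open Finset
open scoped Classical

/-- Weight of an edge whose ends have degrees `a` and `b`. -/
noncomputable def fw (a b : ℕ) : ℝ := Real.sqrt ((a : ℝ) ^ 2 + (b : ℝ) ^ 2 + (a : ℝ) * (b : ℝ))

theorem fw_comm (a b : ℕ) : fw a b = fw b a := by
  unfold fw; congr 1; ring

/-- The degree of a vertex: the number of its neighbours. -/
noncomputable def deg {V : Type} [Fintype V] (G : SimpleGraph V) (v : V) : ℕ :=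
  #{w : V | G.Adj v w}

/-- The Euler Sombor index: the sum over the edges `uv` of
`sqrt (deg u ^ 2 + deg v ^ 2 + deg u * deg v)`. -/
noncomputable def EUS {V : Type} [Fintype V] (G : SimpleGraph V) : ℝ :=
  ∑ e ∈ G.edgeFinset,
    Sym2.lift ⟨fun u v => fw (deg G u) (deg G v), fun _ _ => fw_comm _ _⟩ e

/-- Chemical unicyclic graphs: connected, as many edges as vertices, maximum degree at
most 4. -/
def ChemUni {V : Type} [Fintype V] (G : SimpleGraph V) : Prop :=
  G.Connected ∧ #G.edgeFinset = Fintype.card V ∧ ∀ v, deg G v ≤ 4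

/-- The number of vertices of degree `i`. -/
noncomputable def cnt {V : Type} [Fintype V] (G : SimpleGraph V) (i : ℕ) : ℕ :=
  #{v : V | deg G v = i}

/-- `G` is a triangle with vertices of degrees `a, b, c`, all other vertices being leaves
(in a connected graph: a triangle with `a - 2`, `b - 2`, `c - 2` pendant vertices
attached to its three vertices). -/
def Tri {V : Type} [Fintype V] (G : SimpleGraph V) (a b c : ℕ) : Prop :=
  ∃ x y z : V, G.Adj x y ∧ G.Adj y z ∧ G.Adj x z ∧ deg G x = a ∧ deg G y = b ∧ deg G z = c ∧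
    ∀ w, w ≠ x → w ≠ y → w ≠ z → deg G w = 1

/-- The maximum value `M(n)`. -/
noncomputable def M (n : ℕ) : ℝ :=
  if n = 3 then 6 * √3
  else if n = 4 then √13 + 2 * √19 + 2 * √3
  else if n = 5 then 2 * √21 + 4 * √7 + 2 * √3
  else if n = 6 then 2 * √21 + √13 + 2 * √7 + √19 + √37
  else if n = 8 then 4 * √21 + √13 + 2 * √37 + 4 * √3
  else if n % 3 = 0 then 2 * ((n / 3 : ℕ) : ℝ) * √21 + 4 * ((n / 3 : ℕ) : ℝ) * √3
  else if n % 3 = 1 then
    2 * ((n / 3 : ℕ) : ℝ) * √21 + 4 * √7 + 4 * (((n / 3 : ℕ) : ℝ) - 1) * √3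
  else (2 * ((n / 3 : ℕ) : ℝ) + 1) * √21 + 3 * √37 + 4 * (((n / 3 : ℕ) : ℝ) - 2) * √3

/-- The description of the extremal graphs on `n` vertices. -/
def Ext {V : Type} [Fintype V] (n : ℕ) (G : SimpleGraph V) : Prop :=
  if n = 3 then Tri G 2 2 2
  else if n = 4 then Tri G 3 2 2
  else if n = 5 then Tri G 4 2 2
  else if n = 6 then Tri G 4 3 2
  else if n = 8 then Tri G 4 4 3
  else if n % 3 = 0 then cnt G 2 = 0 ∧ cnt G 3 = 0
  else if n % 3 = 1 then cnt G 2 = 1 ∧ cnt G 3 = 0 ∧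
    ∀ u v, G.Adj u v → deg G u = 2 → deg G v = 4
  else cnt G 2 = 0 ∧ cnt G 3 = 1 ∧
    ∀ u v, G.Adj u v → deg G u = 3 → deg G v = 4

end Pool.Agent.R866.EUS
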