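import Mathlib
import Pool.Agent.R866.EUS.Defs

/-!
# The Euler Sombor index of chemical unicyclic graphs: upper bound
-/

namespace Pool.Agent.R866.EUS

open Finset
open scoped Classical

/-! ### Numerics -/

theorem r3l : (1.7320 : ℝ) < √3 := by rw [Real.lt_sqrt (by norm_num)]; norm_num
theorem r3u : √3 < (1.7321 : ℝ) := by rw [Real.sqrt_lt' (by norm_num)]; norm_num
theorem r7l : (2.6457 : ℝ) < √7 := by rw [Real.lt_sqrt (by norm_num)]; norm_num
theorem r7u : √7 < (2.6458 : ℝ) := by rw [Real.sqrt_lt' (by norm_num)]; norm_num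
theorem r13l : (3.6055 : ℝ) < √13 := by rw [Real.lt_sqrt (by norm_num)]; norm_num
theorem r13u : √13 < (3.6056 : ℝ) := by rw [Real.sqrt_lt' (by norm_num)]; norm_num
theorem r19l : (4.3588 : ℝ) < √19 := by rw [Real.lt_sqrt (by norm_num)]; norm_num
theorem r19u : √19 < (4.3589 : ℝ) := by rw [Real.sqrt_lt' (by norm_num)]; norm_num
theorem r21l : (4.5825 : ℝ) < √21 := by rw [Real.lt_sqrt (by norm_num)]; norm_num
theorem r21u : √21 < (4.5826 : ℝ) := by rw [Real.sqrt_lt' (by norm_num)]; norm_num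
theorem r37l : (6.0827 : ℝ) < √37 := by rw [Real.lt_sqrt (by norm_num)]; norm_num
theorem r37u : √37 < (6.0828 : ℝ) := by rw [Real.sqrt_lt' (by norm_num)]; norm_num

theorem fw11 : fw 1 1 = √3 := by unfold fw; norm_num
theorem fw12 : fw 1 2 = √7 := by unfold fw; norm_num
theorem fw13 : fw 1 3 = √13 := by unfold fw; norm_num
theorem fw14 : fw 1 4 = √21 := by unfold fw; norm_num
theorem fw22 : fw 2 2 = 2 * √3 := by
  unfold fw
  rw [show ((2 : ℕ) : ℝ) ^ 2 + ((2 : ℕ) : ℝ) ^ 2 + ((2 : ℕ) : ℝ) * ((2 : ℕ) : ℝ) = 2 ^ 2 * 3 by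
    norm_num, Real.sqrt_mul (by norm_num), Real.sqrt_sq (by norm_num)]
theorem fw23 : fw 2 3 = √19 := by unfold fw; norm_num
theorem fw24 : fw 2 4 = 2 * √7 := by
  unfold fw
  rw [show ((2 : ℕ) : ℝ) ^ 2 + ((4 : ℕ) : ℝ) ^ 2 + ((2 : ℕ) : ℝ) * ((4 : ℕ) : ℝ) = 2 ^ 2 * 7 by
    norm_num, Real.sqrt_mul (by norm_num), Real.sqrt_sq (by norm_num)]
theorem fw33 : fw 3 3 = 3 * √3 := by
  unfold fw
  rw [show ((3 : ℕ) : ℝ) ^ 2 + ((3 : ℕ) : ℝ) ^ 2 + ((3 : ℕ) : ℝ) * ((3 : ℕ) : ℝ) = 3 ^ 2 * 3 by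
    norm_num, Real.sqrt_mul (by norm_num), Real.sqrt_sq (by norm_num)]
theorem fw34 : fw 3 4 = √37 := by unfold fw; norm_num
theorem fw44 : fw 4 4 = 4 * √3 := by
  unfold fw
  rw [show ((4 : ℕ) : ℝ) ^ 2 + ((4 : ℕ) : ℝ) ^ 2 + ((4 : ℕ) : ℝ) * ((4 : ℕ) : ℝ) = 4 ^ 2 * 3 by
    norm_num, Real.sqrt_mul (by norm_num), Real.sqrt_sq (by norm_num)]
theorem fw21 : fw 2 1 = √7 := by rw [fw_comm, fw12]
theorem fw31 : fw 3 1 = √13 := by rw [fw_comm, fw13]
theorem fw41 : fw 4 1 = √21 := by rw [fw_comm, fw14]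
theorem fw32 : fw 3 2 = √19 := by rw [fw_comm, fw23]
theorem fw42 : fw 4 2 = 2 * √7 := by rw [fw_comm, fw24]
theorem fw43 : fw 4 3 = √37 := by rw [fw_comm, fw34]

/-- Vertex potentials. -/
noncomputable def psi (i : ℕ) : ℝ :=
  if i = 1 then √21 - 2 * √3 else if i = 2 then 2 * √7 - 2 * √3
  else if i = 3 then √37 - 2 * √3 else 2 * √3

theorem psi1 : psi 1 = √21 - 2 * √3 := by simp [psi]
theorem psi2 : psi 2 = 2 * √7 - 2 * √3 := by simp [psi]
theorem psi3 : psi 3 = √37 - 2 * √3 := by simp [psi]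
theorem psi4 : psi 4 = 2 * √3 := by simp [psi]

/-- Slack. -/
noncomputable def sl (a b : ℕ) : ℝ := psi a + psi b - fw a b

theorem sl_pos {a b : ℕ} (ha : 1 ≤ a) (ha4 : a ≤ 3) (hb : 1 ≤ b) (hb4 : b ≤ 3) : 0 < sl a b := by
  have h1 := r3l
  have h2 := r3u
  have h3 := r7l
  have h4 := r7u
  have h5 := r13l
  have h6 := r13u
  have h7 := r19l
  have h8 := r19u
  have h9 := r21l
  have h10 := r21u
  have h11 := r37l
  have h12 := r37u
  unfold sl
  interval_cases a <;> interval_cases b <;>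
    simp only [psi1, psi2, psi3, fw11, fw12, fw13, fw21, fw22, fw23, fw31, fw32, fw33] <;>
    norm_num at * <;> linarith

theorem sl_four {a : ℕ} (ha : 1 ≤ a) (ha4 : a ≤ 4) : sl a 4 = 0 ∧ sl 4 a = 0 := by
  unfold sl
  interval_cases a <;>
    simp only [psi1, psi2, psi3, psi4, fw14, fw24, fw34, fw44, fw41, fw42, fw43] <;>
    constructor <;> ring

theorem sl_nonneg {a b : ℕ} (ha : 1 ≤ a) (ha4 : a ≤ 4) (hb : 1 ≤ b) (hb4 : b ≤ 4) :
    0 ≤ sl a b := by
  rcases Nat.lt_or_ge a 4 with h | h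
  · rcases Nat.lt_or_ge b 4 with h' | h'
    · exact (sl_pos ha (by omega) hb (by omega)).le
    · have : b = 4 := by omega
      subst this
      exact (sl_four ha ha4).1.ge
  · have : a = 4 := by omega
    subst this
    exact (sl_four hb hb4).2.ge

/-- The two loss constants. -/
noncomputable def L2 : ℝ := (2 * √21 + 16 * √3) / 3 - 4 * √7
noncomputable def L3 : ℝ := (√21 + 32 * √3) / 3 - 3 * √37
noncomputable def AA : ℝ := 2 * √21 + 4 * √3

theorem L2_bd : (1.708 : ℝ) < L2 ∧ L2 < 1.712 := by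
  have h1 := r3l
  have h2 := r3u
  have h3 := r7l
  have h4 := r7u
  have h9 := r21l
  have h10 := r21u
  unfold L2
  norm_num at *
  constructor <;> linarith

theorem L3_bd : (1.753 : ℝ) < L3 ∧ L3 < 1.756 := by
  have h1 := r3l
  have h2 := r3u
  have h3 := r37l
  have h4 := r37u
  have h9 := r21l
  have h10 := r21u
  unfold L3
  norm_num at *
  constructor <;> linarith

theorem dpsi {d : ℕ} (h1 : 1 ≤ d) (h4 : d ≤ 4) :
    (d : ℝ) * psi d = (4 * √21 - 16 * √3) / 3 + (10 * √3 - √21) / 3 * (d : ℝ)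
      - (L2 * (if d = 2 then 1 else 0) + L3 * (if d = 3 then 1 else 0)) := by
  interval_cases d
  · rw [psi1]; simp; ring
  · rw [psi2]; simp [L2]; ring
  · rw [psi3]; simp [L3]; ring
  · rw [psi4]; simp; ring

/-! ### Sums over edges -/

variable {V : Type} [Fintype V] (G : SimpleGraph V)

theorem sum_pairs (F : Sym2 V → ℝ) :
    ∑ v : V, ∑ w : V with G.Adj v w, F s(v, w) = 2 * ∑ e ∈ G.edgeFinset, F e := by
  have h1 : ∑ v : V, ∑ w : V with G.Adj v w, F s(v, w)
      = ∑ p : V × V with G.Adj p.1 p.2, F s(p.1, p.2) := by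
    rw [Finset.sum_filter, Fintype.sum_prod_type]
    refine Finset.sum_congr rfl fun v _ => ?_
    rw [Finset.sum_filter]
  rw [h1]
  have hmap : ∀ p ∈ (univ.filter fun p : V × V => G.Adj p.1 p.2),
      (s(p.1, p.2) : Sym2 V) ∈ G.edgeFinset := by
    intro p hp
    rw [SimpleGraph.mem_edgeFinset, SimpleGraph.mem_edgeSet]
    exact (Finset.mem_filter.mp hp).2
  rw [← Finset.sum_fiberwise_of_maps_to hmap, Finset.mul_sum]
  refine Finset.sum_congr rfl fun e he => ?_
  induction e using Sym2.ind with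
  | _ a b =>
    rw [SimpleGraph.mem_edgeFinset, SimpleGraph.mem_edgeSet] at he
    have hne : a ≠ b := he.ne
    have hset : ((univ.filter fun p : V × V => G.Adj p.1 p.2).filter
        fun p => (s(p.1, p.2) : Sym2 V) = s(a, b)) = {(a, b), (b, a)} := by
      ext ⟨x, y⟩
      simp only [Finset.mem_filter, Finset.mem_univ, true_and, Finset.mem_insert,
        Finset.mem_singleton, Prod.mk.injEq, Sym2.eq_iff]
      constructor
      · rintro ⟨_, h⟩; exact h
      · rintro (⟨rfl, rfl⟩ | ⟨rfl, rfl⟩)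
        · exact ⟨he, Or.inl ⟨rfl, rfl⟩⟩
        · exact ⟨he.symm, Or.inr ⟨rfl, rfl⟩⟩
    rw [hset, Finset.sum_pair (by simp [hne])]
    simp only [Sym2.eq_swap (a := b) (b := a)]
    ring

theorem two_EUS :
    2 * EUS G = ∑ v : V, ∑ w : V with G.Adj v w, fw (deg G v) (deg G w) := by
  unfold EUS
  rw [← sum_pairs G]
  simp

theorem sum_deg_real : ∑ v : V, (deg G v : ℝ) = 2 * (#G.edgeFinset : ℝ) := by
  have h := sum_pairs G (fun _ => (1 : ℝ))
  simp only [Finset.sum_const, nsmul_eq_mul, mul_one] at h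
  exact h

theorem sum_deg : ∑ v : V, deg G v = 2 * #G.edgeFinset := by
  have := sum_deg_real G
  exact_mod_cast this

theorem sum_swap (g : V → ℝ) :
    ∑ v : V, ∑ w : V with G.Adj v w, g w = ∑ v : V, (deg G v : ℝ) * g v := by
  have : ∀ v : V, ∑ w : V with G.Adj v w, g w = ∑ w : V, if G.Adj v w then g w else 0 :=
    fun v => Finset.sum_filter _ _
  simp only [this]
  rw [Finset.sum_comm]
  refine Finset.sum_congr rfl fun w _ => ?_
  rw [← Finset.sum_filter, Finset.sum_const, nsmul_eq_mul]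
  unfold deg
  simp only [SimpleGraph.adj_comm G w]

theorem sum_self (g : V → ℝ) :
    ∑ v : V, ∑ _w : V with G.Adj v _w, g v = ∑ v : V, (deg G v : ℝ) * g v := by
  refine Finset.sum_congr rfl fun v _ => ?_
  rw [Finset.sum_const, nsmul_eq_mul]
  rfl

theorem deg_pos (hc : G.Connected) (h2 : 2 ≤ Fintype.card V) (v : V) : 1 ≤ deg G v := by
  have : Nontrivial V := Fintype.one_lt_card_iff_nontrivial.mp h2
  obtain ⟨w, hw⟩ := hc.preconnected.exists_adj_of_nontrivial v
  exact Finset.card_pos.mpr ⟨w, by simp [hw]⟩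

/-- Total slack. -/
noncomputable def SL : ℝ := ∑ v : V, ∑ w : V with G.Adj v w, sl (deg G v) (deg G w)

theorem EUS_eq (h : ChemUni G) (h2 : 2 ≤ Fintype.card V) :
    EUS G = AA / 3 * (Fintype.card V : ℝ) - L2 * (cnt G 2 : ℝ) - L3 * (cnt G 3 : ℝ)
      - SL G / 2 := by
  have h1 := two_EUS G
  have hs : ∑ v : V, ∑ w : V with G.Adj v w, fw (deg G v) (deg G w)
      = 2 * (∑ v : V, (deg G v : ℝ) * psi (deg G v)) - SL G := by
    have e1 := sum_swap G (fun v => psi (deg G v))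
    have e2 := sum_self G (fun v => psi (deg G v))
    unfold SL sl
    simp only [Finset.sum_sub_distrib, Finset.sum_add_distrib]
    linarith
  have hd := sum_deg_real G
  rw [h.2.1] at hd
  have hp : ∑ v : V, (deg G v : ℝ) * psi (deg G v)
      = (4 * √21 - 16 * √3) / 3 * (Fintype.card V : ℝ)
        + (10 * √3 - √21) / 3 * (2 * (Fintype.card V : ℝ))
        - (L2 * (cnt G 2 : ℝ) + L3 * (cnt G 3 : ℝ)) := by
    rw [Finset.sum_congr rfl fun v _ => dpsi (deg_pos G h.1 h2 v) (h.2.2 v)]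
    rw [Finset.sum_sub_distrib, Finset.sum_add_distrib, Finset.sum_add_distrib,
      ← Finset.mul_sum, ← Finset.mul_sum, ← Finset.mul_sum, hd]
    simp only [Finset.sum_boole, Finset.sum_const, Finset.card_univ, nsmul_eq_mul, cnt]
    ring
  unfold AA
  rw [hs, hp] at h1
  linarith

theorem SL_nonneg (h : ChemUni G) (h2 : 2 ≤ Fintype.card V) : 0 ≤ SL G :=
  Finset.sum_nonneg fun v _ => Finset.sum_nonneg fun w _ =>
    sl_nonneg (deg_pos G h.1 h2 v) (h.2.2 v) (deg_pos G h.1 h2 w) (h.2.2 w)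

theorem SL_eq_zero_iff (h : ChemUni G) (h2 : 2 ≤ Fintype.card V) :
    SL G = 0 ↔ ∀ u v, G.Adj u v → deg G u = 4 ∨ deg G v = 4 := by
  unfold SL
  have nn : ∀ v w, 0 ≤ sl (deg G v) (deg G w) := fun v w =>
    sl_nonneg (deg_pos G h.1 h2 v) (h.2.2 v) (deg_pos G h.1 h2 w) (h.2.2 w)
  rw [Finset.sum_eq_zero_iff_of_nonneg fun v _ => Finset.sum_nonneg fun w _ => nn v w]
  constructor
  · intro H u v huv
    by_contra hcon
    push Not at hcon
    have H1 := H u (Finset.mem_univ _)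
    rw [Finset.sum_eq_zero_iff_of_nonneg fun w _ => nn u w] at H1
    have H2 := H1 v (by simp [huv])
    have h3 := h.2.2 u
    have h4 := h.2.2 v
    have := sl_pos (deg_pos G h.1 h2 u) (by omega) (deg_pos G h.1 h2 v) (by omega)
    linarith
  · intro H u _
    refine Finset.sum_eq_zero fun w hw => ?_
    rw [Finset.mem_filter] at hw
    rcases H u w hw.2 with h' | h'
    · rw [h']; exact (sl_four (deg_pos G h.1 h2 w) (h.2.2 w)).2
    · rw [h']; exact (sl_four (deg_pos G h.1 h2 u) (h.2.2 u)).1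

theorem cnt_eq (h : ChemUni G) (h2 : 2 ≤ Fintype.card V) :
    cnt G 2 + 2 * cnt G 3 + 3 * cnt G 4 = Fintype.card V := by
  have hd := sum_deg G
  rw [h.2.1] at hd
  have hp : ∀ v : V, deg G v = 1 + ((if deg G v = 2 then 1 else 0)
      + 2 * (if deg G v = 3 then 1 else 0) + 3 * (if deg G v = 4 then 1 else 0)) := by
    intro v
    have h3 := deg_pos G h.1 h2 v
    have h4 := h.2.2 v
    interval_cases deg G v <;> simp
  have : ∑ v : V, deg G v = Fintype.card V + (cnt G 2 + 2 * cnt G 3 + 3 * cnt G 4) := by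
    rw [Finset.sum_congr rfl fun v _ => hp v]
    rw [Finset.sum_add_distrib, Finset.sum_add_distrib, Finset.sum_add_distrib,
      ← Finset.mul_sum, ← Finset.mul_sum]
    simp [cnt]
  omega

end Pool.Agent.R866.EUS
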