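import Mathlib
import Pool.Agent.R866.EUS.Upper

/-!
# The Euler Sombor index of chemical unicyclic graphs: core structure
-/

namespace Pool.Agent.R866.EUS

open Finset
open scoped Classical

variable {V : Type} [Fintype V] (G : SimpleGraph V)

theorem leaf_adj (hc : G.Connected) (h3 : 3 ≤ Fintype.card V) {u v : V} (huv : G.Adj u v)
    (hu : deg G u = 1) : deg G v ≠ 1 := by
  intro hv
  have hNu : ∀ w, G.Adj u w → w = v := by
    intro w hw
    obtain ⟨a, ha⟩ := Finset.card_eq_one.mp hu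
    have h1 : v ∈ ({w : V | G.Adj u w} : Finset V) := by simp [huv]
    have h2 : w ∈ ({w : V | G.Adj u w} : Finset V) := by simp [hw]
    rw [ha, Finset.mem_singleton] at h1 h2
    rw [h1, h2]
  have hNv : ∀ w, G.Adj v w → w = u := by
    intro w hw
    obtain ⟨a, ha⟩ := Finset.card_eq_one.mp hv
    have h1 : u ∈ ({w : V | G.Adj v w} : Finset V) := by simp [huv.symm]
    have h2 : w ∈ ({w : V | G.Adj v w} : Finset V) := by simp [hw]
    rw [ha, Finset.mem_singleton] at h1 h2
    rw [h1, h2]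
  have hw : ∀ a b : V, G.Walk a b → (a = u ∨ a = v) → (b = u ∨ b = v) := by
    intro a b p
    induction p with
    | nil => exact id
    | cons hadj _ ih =>
      intro h
      apply ih
      rcases h with rfl | rfl
      · exact Or.inr (hNu _ hadj)
      · exact Or.inl (hNv _ hadj)
  have hall : (univ : Finset V) ⊆ {u, v} := by
    intro b _
    obtain ⟨p⟩ := hc.preconnected u b
    have := hw u b p (Or.inl rfl)
    simpa using this
  have := Finset.card_le_card hall
  have h2 : #({u, v} : Finset V) ≤ 2 := Finset.card_le_two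
  rw [Finset.card_univ] at this
  omega

/-- Vertices which are not leaves. -/
noncomputable def K : Finset V := univ.filter fun v => deg G v ≠ 1

theorem card_K (h : ChemUni G) (h2 : 2 ≤ Fintype.card V) :
    #(K G) = cnt G 2 + cnt G 3 + cnt G 4 := by
  have hp : ∀ v : V, (if deg G v ≠ 1 then 1 else 0) = (if deg G v = 2 then 1 else 0)
      + (if deg G v = 3 then 1 else 0) + (if deg G v = 4 then 1 else 0) := by
    intro v
    have h3 := deg_pos G h.1 h2 v
    have h4 := h.2.2 v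
    interval_cases deg G v <;> simp
  unfold K cnt
  rw [Finset.card_filter, Finset.sum_congr rfl fun v _ => hp v,
    Finset.sum_add_distrib, Finset.sum_add_distrib]
  simp

theorem deg_eq_sum (v : V) : (deg G v : ℤ) = ∑ w : V, if G.Adj v w then (1 : ℤ) else 0 := by
  simp [deg]

theorem core_count (h : ChemUni G) (h3 : 3 ≤ Fintype.card V) :
    ∑ v ∈ K G, ∑ w ∈ K G, (if G.Adj v w then (1 : ℤ) else 0) = 2 * #(K G) := by
  have hd : ∑ v : V, (deg G v : ℤ) = 2 * (Fintype.card V : ℤ) := by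
    have := sum_deg G
    rw [h.2.1] at this
    exact_mod_cast this
  have hout : ∀ v, v ∈ (K G)ᶜ → deg G v = 1 := by
    intro v hv
    simpa [K] using hv
  have e0 : ∑ v ∈ (K G)ᶜ, (deg G v : ℤ) = (Fintype.card V : ℤ) - #(K G) := by
    rw [Finset.sum_congr rfl fun v hv => by rw [hout v hv]]
    simp [Finset.card_compl, Nat.cast_sub (Finset.card_le_univ (K G))]
  have e1 : ∑ v ∈ (K G)ᶜ, (deg G v : ℤ)
      = ∑ v ∈ (K G)ᶜ, ∑ w ∈ K G, (if G.Adj v w then (1 : ℤ) else 0) := by
    refine Finset.sum_congr rfl fun v hv => ?_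
    rw [deg_eq_sum, ← Finset.sum_add_sum_compl (K G)]
    have : ∑ w ∈ (K G)ᶜ, (if G.Adj v w then (1 : ℤ) else 0) = 0 := by
      refine Finset.sum_eq_zero fun w hw => ?_
      rw [if_neg]
      intro hadj
      exact leaf_adj G h.1 h3 hadj (hout v hv) (hout w hw)
    rw [this, add_zero]
  have e2 : ∑ v ∈ K G, (deg G v : ℤ)
      = ∑ v ∈ K G, ∑ w ∈ K G, (if G.Adj v w then (1 : ℤ) else 0)
        + ∑ v ∈ K G, ∑ w ∈ (K G)ᶜ, (if G.Adj v w then (1 : ℤ) else 0) := by
    rw [← Finset.sum_add_distrib]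
    refine Finset.sum_congr rfl fun v _ => ?_
    rw [deg_eq_sum, ← Finset.sum_add_sum_compl (K G)]
  have e3 : ∑ v ∈ K G, ∑ w ∈ (K G)ᶜ, (if G.Adj v w then (1 : ℤ) else 0)
      = ∑ v ∈ (K G)ᶜ, ∑ w ∈ K G, (if G.Adj v w then (1 : ℤ) else 0) := by
    rw [Finset.sum_comm]
    simp only [SimpleGraph.adj_comm]
  have e4 := Finset.sum_add_sum_compl (K G) (fun v => (deg G v : ℤ))
  linarith

theorem K_nonempty (h : ChemUni G) (h3 : 3 ≤ Fintype.card V) : 0 < #(K G) := by
  rcases Nat.eq_zero_or_pos #(K G) with h0 | h0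
  · exfalso
    have hall : ∀ v, deg G v = 1 := by
      intro v
      by_contra hv
      have : v ∈ K G := by simp [K, hv]
      rw [Finset.card_eq_zero] at h0
      rw [h0] at this
      simp at this
    have := sum_deg G
    rw [h.2.1] at this
    simp only [hall, Finset.sum_const, Finset.card_univ, smul_eq_mul, mul_one] at this
    omega
  · exact h0

theorem inner_le (v : V) (hv : v ∈ K G) :
    ∑ w ∈ K G, (if G.Adj v w then (1 : ℤ) else 0) ≤ #(K G) - 1 := by
  rw [← Finset.sum_erase_add _ _ hv]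
  simp only [SimpleGraph.irrefl, if_false, add_zero]
  calc ∑ w ∈ (K G).erase v, (if G.Adj v w then (1 : ℤ) else 0)
      ≤ ∑ w ∈ (K G).erase v, (1 : ℤ) := Finset.sum_le_sum fun w _ => by split_ifs <;> norm_num
    _ = #(K G) - 1 := by
        rw [Finset.sum_const, Finset.card_erase_of_mem hv]
        have : 0 < #(K G) := Finset.card_pos.mpr ⟨v, hv⟩
        simp [Nat.cast_sub (Nat.one_le_iff_ne_zero.mpr this.ne')]

theorem three_le (h : ChemUni G) (h3 : 3 ≤ Fintype.card V) : 3 ≤ #(K G) := by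
  have h1 := core_count G h h3
  have h2 := K_nonempty G h h3
  have h4 : ∑ v ∈ K G, ∑ w ∈ K G, (if G.Adj v w then (1 : ℤ) else 0)
      ≤ ∑ v ∈ K G, ((#(K G) : ℤ) - 1) := Finset.sum_le_sum fun v hv => inner_le G v hv
  rw [h1, Finset.sum_const, nsmul_eq_mul] at h4
  by_contra hlt
  push Not at hlt
  interval_cases hK : #(K G) <;> norm_num at h4

theorem K_complete (h : ChemUni G) (h3 : 3 ≤ Fintype.card V) (hK : #(K G) = 3) {v w : V}
    (hv : v ∈ K G) (hw : w ∈ K G) (hne : v ≠ w) : G.Adj v w := by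
  have h1 := core_count G h h3
  by_contra hadj
  have hlt : ∑ w ∈ K G, (if G.Adj v w then (1 : ℤ) else 0) < #(K G) - 1 := by
    rw [← Finset.sum_erase_add _ _ hv]
    simp only [SimpleGraph.irrefl, if_false, add_zero]
    have hmem : w ∈ (K G).erase v := Finset.mem_erase.mpr ⟨hne.symm, hw⟩
    rw [← Finset.sum_erase_add _ _ hmem]
    simp only [hadj, if_false, add_zero]
    calc ∑ w ∈ ((K G).erase v).erase w, (if G.Adj v w then (1 : ℤ) else 0)
        ≤ ∑ w ∈ ((K G).erase v).erase w, (1 : ℤ) :=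
          Finset.sum_le_sum fun w _ => by split_ifs <;> norm_num
      _ < #(K G) - 1 := by
          rw [Finset.sum_const, Finset.card_erase_of_mem hmem, Finset.card_erase_of_mem hv, hK]
          norm_num
  have h4 : ∑ v ∈ K G, ∑ w ∈ K G, (if G.Adj v w then (1 : ℤ) else 0)
      < ∑ v ∈ K G, ((#(K G) : ℤ) - 1) :=
    Finset.sum_lt_sum (fun v hv => inner_le G v hv) ⟨v, hv, hlt⟩
  rw [h1, Finset.sum_const, nsmul_eq_mul, hK] at h4
  norm_num at h4

theorem exists_tri (h : ChemUni G) (h3 : 3 ≤ Fintype.card V) (hK : #(K G) = 3) :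
    ∃ a b c, Tri G a b c := by
  obtain ⟨x, y, z, hxy, hxz, hyz, hset⟩ := Finset.card_eq_three.mp hK
  have hx : x ∈ K G := by rw [hset]; simp
  have hy : y ∈ K G := by rw [hset]; simp
  have hz : z ∈ K G := by rw [hset]; simp
  refine ⟨deg G x, deg G y, deg G z, x, y, z, K_complete G h h3 hK hx hy hxy,
    K_complete G h h3 hK hy hz hyz, K_complete G h h3 hK hx hz hxz, rfl, rfl, rfl, ?_⟩
  intro w hwx hwy hwz
  by_contra hw
  have : w ∈ K G := by simp [K, hw]
  rw [hset] at this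
  simp [hwx, hwy, hwz] at this

theorem Tri.swap12 {a b c : ℕ} (h : Tri G a b c) : Tri G b a c := by
  obtain ⟨x, y, z, h1, h2, h3, h4, h5, h6, h7⟩ := h
  exact ⟨y, x, z, h1.symm, h3, h2, h5, h4, h6, fun w p q r => h7 w q p r⟩

theorem Tri.swap23 {a b c : ℕ} (h : Tri G a b c) : Tri G a c b := by
  obtain ⟨x, y, z, h1, h2, h3, h4, h5, h6, h7⟩ := h
  exact ⟨x, z, y, h3, h2.symm, h1, h4, h6, h5, fun w p q r => h7 w p r q⟩

theorem Tri.sorted {a b c : ℕ} (h : Tri G a b c) :
    ∃ a' b' c', c' ≤ b' ∧ b' ≤ a' ∧ Tri G a' b' c' := by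
  rcases le_total a b with hab | hab <;> rcases le_total b c with hbc | hbc <;>
    rcases le_total a c with hac | hac
  · exact ⟨c, b, a, hab, hbc, (((h.swap12).swap23).swap12)⟩
  · exact ⟨c, b, a, hab, hbc, (((h.swap12).swap23).swap12)⟩
  · exact ⟨b, c, a, hac, hbc, (h.swap12).swap23⟩
  · exact ⟨b, a, c, hac, hab, h.swap12⟩
  · exact ⟨c, a, b, hab, hac, (h.swap23).swap12⟩
  · exact ⟨a, c, b, hbc, hac, h.swap23⟩
  · exact ⟨a, b, c, hbc, hab, h⟩
  · exact ⟨a, b, c, hbc, hab, h⟩

/-- Value of the index of a triangle with pendant vertices. -/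
noncomputable def val (a b c : ℕ) : ℝ :=
  fw a b + fw b c + fw a c + ((a : ℝ) - 2) * fw 1 a + ((b : ℝ) - 2) * fw 1 b
    + ((c : ℝ) - 2) * fw 1 c

theorem out_sum {T : Finset V} (hT : #T = 3) {x : V} (hx : x ∈ T)
    (hadj : ∀ w ∈ T, w ≠ x → G.Adj x w) (hleaf : ∀ w, w ∉ T → deg G w = 1) :
    ∑ w ∈ Tᶜ, (if G.Adj x w then fw (deg G x) (deg G w) else 0)
      = ((deg G x : ℝ) - 2) * fw 1 (deg G x) := by
  have e1 : ∑ w ∈ Tᶜ, (if G.Adj x w then fw (deg G x) (deg G w) else 0)
      = (∑ w ∈ Tᶜ, (if G.Adj x w then (1 : ℝ) else 0)) * fw 1 (deg G x) := by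
    rw [Finset.sum_mul]
    refine Finset.sum_congr rfl fun w hw => ?_
    rw [hleaf w (Finset.mem_compl.mp hw), fw_comm]
    split_ifs <;> simp
  rw [e1]
  congr 1
  have e2 : (deg G x : ℝ) = ∑ w : V, if G.Adj x w then (1 : ℝ) else 0 := by simp [deg]
  have e3 : ∑ w ∈ T.erase x, (if G.Adj x w then (1 : ℝ) else 0) = 2 := by
    rw [Finset.sum_congr rfl (g := fun _ => (1 : ℝ)) (fun w hw => by
      rw [if_pos (hadj w (Finset.mem_of_mem_erase hw) (Finset.ne_of_mem_erase hw))])]
    rw [Finset.sum_const, Finset.card_erase_of_mem hx, hT]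
    norm_num
  rw [e2, ← Finset.sum_add_sum_compl T, ← Finset.sum_erase_add _ _ hx, e3]
  simp only [SimpleGraph.irrefl, if_false, add_zero]
  ring

theorem tri_data (h : ChemUni G) (h3 : 3 ≤ Fintype.card V) {a b c : ℕ} (ht : Tri G a b c) :
    EUS G = val a b c ∧ a + b + c = Fintype.card V + 3 ∧ 2 ≤ a ∧ 2 ≤ b ∧ 2 ≤ c ∧
      a ≤ 4 ∧ b ≤ 4 ∧ c ≤ 4 ∧ #(K G) = 3 := by
  obtain ⟨x, y, z, hxy, hyz, hxz, rfl, rfl, rfl, hleaf⟩ := ht
  have hne1 : x ≠ y := hxy.ne
  have hne2 : y ≠ z := hyz.ne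
  have hne3 : x ≠ z := hxz.ne
  set T : Finset V := {x, y, z} with hTdef
  have hT : #T = 3 := by
    rw [hTdef, Finset.card_eq_three]
    exact ⟨x, y, z, hne1, hne3, hne2, rfl⟩
  have hleaf' : ∀ w, w ∉ T → deg G w = 1 := by
    intro w hw
    simp only [hTdef, Finset.mem_insert, Finset.mem_singleton, not_or] at hw
    exact hleaf w hw.1 hw.2.1 hw.2.2
  have hsumT : ∀ g : V → ℝ, ∑ v ∈ T, g v = g x + g y + g z := by
    intro g
    rw [hTdef, Finset.sum_insert (by simp [hne1, hne3]), Finset.sum_insert (by simp [hne2]),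
      Finset.sum_singleton]
    ring
  have hcT : ∀ v ∈ T, ∀ w ∈ T, w ≠ v → G.Adj v w := by
    intro v hv w hw hne
    simp only [hTdef, Finset.mem_insert, Finset.mem_singleton] at hv hw
    rcases hv with rfl | rfl | rfl <;> rcases hw with rfl | rfl | rfl <;>
      first
      | exact absurd rfl hne
      | assumption
      | (apply SimpleGraph.Adj.symm; assumption)
  have hdeg2 : ∀ v ∈ T, 2 ≤ deg G v := by
    intro v hv
    have hsub : T.erase v ⊆ ({w : V | G.Adj v w} : Finset V) := by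
      intro w hw
      simp only [Finset.mem_filter, Finset.mem_univ, true_and]
      exact hcT v hv w (Finset.mem_of_mem_erase hw) (Finset.ne_of_mem_erase hw)
    have := Finset.card_le_card hsub
    rw [Finset.card_erase_of_mem hv, hT] at this
    exact this
  have hKT : K G = T := by
    ext w
    simp only [K, Finset.mem_filter, Finset.mem_univ, true_and]
    constructor
    · intro hw
      by_contra hcon
      exact hw (hleaf' w hcon)
    · intro hw
      have := hdeg2 w hw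
      omega
  have hsum : deg G x + deg G y + deg G z = Fintype.card V + 3 := by
    have hd := sum_deg_real G
    rw [h.2.1, ← Finset.sum_add_sum_compl T, hsumT,
      Finset.sum_congr rfl (g := fun _ => (1 : ℝ)) (fun w hw => by
        rw [hleaf' w (Finset.mem_compl.mp hw)]; norm_num)] at hd
    rw [Finset.sum_const, Finset.card_compl, hT, nsmul_eq_mul, mul_one,
      Nat.cast_sub h3] at hd
    have : ((deg G x + deg G y + deg G z : ℕ) : ℝ) = ((Fintype.card V + 3 : ℕ) : ℝ) := by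
      push_cast
      push_cast at hd
      linarith
    exact_mod_cast this
  have hxT : x ∈ T := by simp [hTdef]
  have hyT : y ∈ T := by simp [hTdef]
  have hzT : z ∈ T := by simp [hTdef]
  refine ⟨?_, hsum, hdeg2 x hxT, hdeg2 y hyT, hdeg2 z hzT, h.2.2 x, h.2.2 y, h.2.2 z,
    by rw [hKT, hT]⟩
  have h2E := two_EUS G
  set A : V → V → ℝ := fun v w => if G.Adj v w then fw (deg G v) (deg G w) else 0 with hA
  have hAsymm : ∀ v w, A v w = A w v := by
    intro v w
    simp only [hA, SimpleGraph.adj_comm G v w]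
    rw [fw_comm]
  have hE : ∑ v : V, ∑ w : V with G.Adj v w, fw (deg G v) (deg G w) = ∑ v : V, ∑ w : V, A v w := by
    refine Finset.sum_congr rfl fun v _ => ?_
    rw [Finset.sum_filter]
  rw [hE] at h2E
  have hsplit : ∑ v : V, ∑ w : V, A v w = ∑ v ∈ T, ∑ w ∈ T, A v w
      + 2 * ∑ v ∈ T, ∑ w ∈ Tᶜ, A v w := by
    rw [← Finset.sum_add_sum_compl T]
    have e1 : ∑ v ∈ T, ∑ w : V, A v w = ∑ v ∈ T, ∑ w ∈ T, A v w + ∑ v ∈ T, ∑ w ∈ Tᶜ, A v w := by
      rw [← Finset.sum_add_distrib]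
      exact Finset.sum_congr rfl fun v _ => (Finset.sum_add_sum_compl T _).symm
    have e2 : ∑ v ∈ Tᶜ, ∑ w : V, A v w = ∑ v ∈ Tᶜ, ∑ w ∈ T, A v w := by
      refine Finset.sum_congr rfl fun v hv => ?_
      rw [← Finset.sum_add_sum_compl T]
      have : ∑ w ∈ Tᶜ, A v w = 0 := by
        refine Finset.sum_eq_zero fun w hw => ?_
        simp only [hA]
        rw [if_neg]
        intro hadj
        exact leaf_adj G h.1 h3 hadj (hleaf' v (Finset.mem_compl.mp hv))
          (hleaf' w (Finset.mem_compl.mp hw))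
      rw [this, add_zero]
    have e3 : ∑ v ∈ Tᶜ, ∑ w ∈ T, A v w = ∑ v ∈ T, ∑ w ∈ Tᶜ, A v w := by
      rw [Finset.sum_comm]
      refine Finset.sum_congr rfl fun v _ => Finset.sum_congr rfl fun w _ => hAsymm _ _
    rw [e1, e2, e3]; ring
  have o1 := out_sum G hT hxT (hcT x hxT) hleaf'
  have o2 := out_sum G hT hyT (hcT y hyT) hleaf'
  have o3 := out_sum G hT hzT (hcT z hzT) hleaf'
  have i1 : ∑ v ∈ T, ∑ w ∈ T, A v w = 2 * (fw (deg G x) (deg G y) + fw (deg G y) (deg G z)
      + fw (deg G x) (deg G z)) := by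
    rw [hsumT, hsumT, hsumT, hsumT]
    simp only [hA, SimpleGraph.irrefl, if_false, if_pos hxy, if_pos hxz, if_pos hyz,
      if_pos hxy.symm, if_pos hxz.symm, if_pos hyz.symm]
    rw [fw_comm (deg G y) (deg G x), fw_comm (deg G z) (deg G x), fw_comm (deg G z) (deg G y)]
    ring
  rw [hsplit, i1, hsumT] at h2E
  simp only [hA] at h2E
  rw [o1, o2, o3] at h2E
  unfold val
  linarith

end Pool.Agent.R866.EUS
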