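import Mathlib
import Pool.Agent.R866.EUS.Core

/-!
# The Euler Sombor index of chemical unicyclic graphs: classification
-/

namespace Pool.Agent.R866.EUS

open Finset
open scoped Classical

variable {V : Type} [Fintype V] (G : SimpleGraph V)

theorem loss_two {p q : ℕ} (h : 2 ≤ p + q) : 3.416 ≤ L2 * (p : ℝ) + L3 * (q : ℝ) := by
  have h1 := L2_bd.1
  have h2 := L3_bd.1
  have hp : (0 : ℝ) ≤ p := Nat.cast_nonneg p
  have hq : (0 : ℝ) ≤ q := Nat.cast_nonneg q
  have h' : (2 : ℝ) ≤ (p : ℝ) + (q : ℝ) := by exact_mod_cast h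
  have e1 : 1.708 * (p : ℝ) ≤ L2 * (p : ℝ) := mul_le_mul_of_nonneg_right h1.le hp
  have e2 : 1.708 * (q : ℝ) ≤ L3 * (q : ℝ) :=
    mul_le_mul_of_nonneg_right (by linarith) hq
  linarith

theorem cnt_zero {i : ℕ} : cnt G i = 0 ↔ ∀ v, deg G v ≠ i := by
  unfold cnt
  rw [Finset.card_eq_zero, Finset.filter_eq_empty_iff]
  simp

theorem large0 (h : ChemUni G) (h3 : 3 ≤ Fintype.card V) (h0 : Fintype.card V % 3 = 0) :
    EUS G ≤ 2 * ((Fintype.card V / 3 : ℕ) : ℝ) * √21 + 4 * ((Fintype.card V / 3 : ℕ) : ℝ) * √3 ∧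
    (EUS G = 2 * ((Fintype.card V / 3 : ℕ) : ℝ) * √21 + 4 * ((Fintype.card V / 3 : ℕ) : ℝ) * √3 ↔
      cnt G 2 = 0 ∧ cnt G 3 = 0) := by
  have hE := EUS_eq G h (by omega)
  have hS := SL_nonneg G h (by omega)
  obtain ⟨m, hm⟩ : ∃ m, Fintype.card V = 3 * m := ⟨Fintype.card V / 3, by omega⟩
  have hm' : Fintype.card V / 3 = m := by omega
  have hcast : (Fintype.card V : ℝ) = 3 * (m : ℝ) := by rw [hm]; push_cast; ring
  rw [hm']
  rw [hcast] at hE
  have hc2 : (0 : ℝ) ≤ cnt G 2 := Nat.cast_nonneg _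
  have hc3 : (0 : ℝ) ≤ cnt G 3 := Nat.cast_nonneg _
  have hL2 := L2_bd.1
  have hL3 := L3_bd.1
  have hp2 : 0 ≤ L2 * (cnt G 2 : ℝ) := mul_nonneg (by linarith) hc2
  have hp3 : 0 ≤ L3 * (cnt G 3 : ℝ) := mul_nonneg (by linarith) hc3
  have hM : 2 * (m : ℝ) * √21 + 4 * (m : ℝ) * √3 = AA / 3 * (3 * (m : ℝ)) := by unfold AA; ring
  rw [hM]
  refine ⟨by linarith, ?_, ?_⟩
  · intro heq
    constructor
    · by_contra hne
      have : (1 : ℝ) ≤ cnt G 2 := by exact_mod_cast Nat.one_le_iff_ne_zero.mpr hne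
      nlinarith
    · by_contra hne
      have : (1 : ℝ) ≤ cnt G 3 := by exact_mod_cast Nat.one_le_iff_ne_zero.mpr hne
      nlinarith
  · rintro ⟨h2, h3'⟩
    have hSL : SL G = 0 := by
      rw [SL_eq_zero_iff G h (by omega)]
      intro u v huv
      have hu := (cnt_zero G).mp h2 u
      have hu' := (cnt_zero G).mp h3' u
      have hv := (cnt_zero G).mp h2 v
      have hv' := (cnt_zero G).mp h3' v
      have l1 := deg_pos G h.1 (by omega) u
      have l2 := deg_pos G h.1 (by omega) v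
      have l3 := h.2.2 u
      have l4 := h.2.2 v
      by_contra hcon
      push Not at hcon
      exact leaf_adj G h.1 h3 huv (by omega) (by omega)
    rw [hE, h2, h3', hSL]
    norm_num

theorem large1 (h : ChemUni G) (h3 : 3 ≤ Fintype.card V) (h0 : Fintype.card V % 3 = 1) :
    EUS G ≤ 2 * ((Fintype.card V / 3 : ℕ) : ℝ) * √21 + 4 * √7
      + 4 * (((Fintype.card V / 3 : ℕ) : ℝ) - 1) * √3 ∧
    (EUS G = 2 * ((Fintype.card V / 3 : ℕ) : ℝ) * √21 + 4 * √7
      + 4 * (((Fintype.card V / 3 : ℕ) : ℝ) - 1) * √3 ↔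
      cnt G 2 = 1 ∧ cnt G 3 = 0 ∧ ∀ u v, G.Adj u v → deg G u = 2 → deg G v = 4) := by
  have hE := EUS_eq G h (by omega)
  have hS := SL_nonneg G h (by omega)
  have hc := cnt_eq G h (by omega)
  obtain ⟨m, hm⟩ : ∃ m, Fintype.card V = 3 * m + 1 := ⟨Fintype.card V / 3, by omega⟩
  have hm' : Fintype.card V / 3 = m := by omega
  have hcast : (Fintype.card V : ℝ) = 3 * (m : ℝ) + 1 := by rw [hm]; push_cast; ring
  rw [hm']
  rw [hcast] at hE
  have hL2 := L2_bd.2
  have hM : 2 * (m : ℝ) * √21 + 4 * √7 + 4 * ((m : ℝ) - 1) * √3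
      = AA / 3 * (3 * (m : ℝ) + 1) - L2 := by unfold AA L2; ring
  rw [hM]
  by_cases hcase : cnt G 2 = 1 ∧ cnt G 3 = 0
  · obtain ⟨h2, h3'⟩ := hcase
    rw [h2, h3'] at hE
    have hiff : SL G = 0 ↔ ∀ u v, G.Adj u v → deg G u = 2 → deg G v = 4 := by
      rw [SL_eq_zero_iff G h (by omega)]
      constructor
      · intro H u v huv hu
        rcases H u v huv with h' | h'
        · omega
        · exact h'
      · intro H u v huv
        have hu' := (cnt_zero G).mp h3' u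
        have hv' := (cnt_zero G).mp h3' v
        have l1 := deg_pos G h.1 (by omega) u
        have l2 := deg_pos G h.1 (by omega) v
        have l3 := h.2.2 u
        have l4 := h.2.2 v
        have H1 := H u v huv
        have H2 := H v u huv.symm
        by_contra hcon
        push Not at hcon
        exact leaf_adj G h.1 h3 huv (by omega) (by omega)
    refine ⟨by push_cast at hE; linarith, ?_, ?_⟩
    · intro heq
      refine ⟨h2, h3', hiff.mp ?_⟩
      push_cast at hE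
      linarith
    · rintro ⟨_, _, H⟩
      have := hiff.mpr H
      push_cast at hE
      linarith
  · have hge : 2 ≤ cnt G 2 + cnt G 3 := by
      by_contra hlt
      apply hcase
      omega
    have hl := loss_two hge
    refine ⟨by linarith, ?_, ?_⟩
    · intro heq; exfalso; linarith
    · rintro ⟨h2, h3', _⟩; exact absurd ⟨h2, h3'⟩ hcase

theorem large2 (h : ChemUni G) (h3 : 3 ≤ Fintype.card V) (h0 : Fintype.card V % 3 = 2) :
    EUS G ≤ (2 * ((Fintype.card V / 3 : ℕ) : ℝ) + 1) * √21 + 3 * √37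
      + 4 * (((Fintype.card V / 3 : ℕ) : ℝ) - 2) * √3 ∧
    (EUS G = (2 * ((Fintype.card V / 3 : ℕ) : ℝ) + 1) * √21 + 3 * √37
      + 4 * (((Fintype.card V / 3 : ℕ) : ℝ) - 2) * √3 ↔
      cnt G 2 = 0 ∧ cnt G 3 = 1 ∧ ∀ u v, G.Adj u v → deg G u = 3 → deg G v = 4) := by
  have hE := EUS_eq G h (by omega)
  have hS := SL_nonneg G h (by omega)
  have hc := cnt_eq G h (by omega)
  obtain ⟨m, hm⟩ : ∃ m, Fintype.card V = 3 * m + 2 := ⟨Fintype.card V / 3, by omega⟩
  have hm' : Fintype.card V / 3 = m := by omega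
  have hcast : (Fintype.card V : ℝ) = 3 * (m : ℝ) + 2 := by rw [hm]; push_cast; ring
  rw [hm']
  rw [hcast] at hE
  have hL3 := L3_bd.2
  have hM : (2 * (m : ℝ) + 1) * √21 + 3 * √37 + 4 * ((m : ℝ) - 2) * √3
      = AA / 3 * (3 * (m : ℝ) + 2) - L3 := by unfold AA L3; ring
  rw [hM]
  by_cases hcase : cnt G 2 = 0 ∧ cnt G 3 = 1
  · obtain ⟨h2, h3'⟩ := hcase
    rw [h2, h3'] at hE
    have hiff : SL G = 0 ↔ ∀ u v, G.Adj u v → deg G u = 3 → deg G v = 4 := by
      rw [SL_eq_zero_iff G h (by omega)]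
      constructor
      · intro H u v huv hu
        rcases H u v huv with h' | h'
        · omega
        · exact h'
      · intro H u v huv
        have hu' := (cnt_zero G).mp h2 u
        have hv' := (cnt_zero G).mp h2 v
        have l1 := deg_pos G h.1 (by omega) u
        have l2 := deg_pos G h.1 (by omega) v
        have l3 := h.2.2 u
        have l4 := h.2.2 v
        have H1 := H u v huv
        have H2 := H v u huv.symm
        by_contra hcon
        push Not at hcon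
        exact leaf_adj G h.1 h3 huv (by omega) (by omega)
    refine ⟨by push_cast at hE; linarith, ?_, ?_⟩
    · intro heq
      refine ⟨h2, h3', hiff.mp ?_⟩
      push_cast at hE
      linarith
    · rintro ⟨_, _, H⟩
      have := hiff.mpr H
      push_cast at hE
      linarith
  · have hge : 2 ≤ cnt G 2 + cnt G 3 := by
      by_contra hlt
      apply hcase
      omega
    have hl := loss_two hge
    refine ⟨by linarith, ?_, ?_⟩
    · intro heq; exfalso; linarith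
    · rintro ⟨h2, h3', _⟩; exact absurd ⟨h2, h3'⟩ hcase

/-- Either the non-leaves form a triangle, or the rough bound applies with at least four
non-leaves. -/
theorem small (h : ChemUni G) (h3 : 3 ≤ Fintype.card V) :
    (∃ a b c, c ≤ b ∧ b ≤ a ∧ 2 ≤ c ∧ a ≤ 4 ∧ a + b + c = Fintype.card V + 3 ∧ Tri G a b c ∧
      EUS G = val a b c) ∨
    (4 ≤ cnt G 2 + cnt G 3 + cnt G 4 ∧
      EUS G ≤ AA / 3 * (Fintype.card V : ℝ) - (L2 * (cnt G 2 : ℝ) + L3 * (cnt G 3 : ℝ))
      ∧ ∀ a b c, ¬ Tri G a b c) := by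
  have hK := three_le G h h3
  have hcK := card_K G h (by omega)
  rcases Nat.eq_or_lt_of_le hK with h' | h'
  · left
    obtain ⟨a, b, c, ht⟩ := exists_tri G h h3 h'.symm
    obtain ⟨a, b, c, h1, h2, ht⟩ := Tri.sorted G ht
    obtain ⟨hE, hs, _, _, hc, ha, _, _, _⟩ := tri_data G h h3 ht
    exact ⟨a, b, c, h1, h2, hc, ha, hs, ht, hE⟩
  · right
    refine ⟨by omega, ?_, ?_⟩
    · have hE := EUS_eq G h (by omega)
      have hS := SL_nonneg G h (by omega)
      linarith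
    · intro a b c ht
      obtain ⟨_, _, _, _, _, _, _, _, hk⟩ := tri_data G h h3 ht
      omega

theorem val222 : val 2 2 2 = 6 * √3 := by
  unfold val; rw [fw22]; push_cast; ring
theorem val322 : val 3 2 2 = √13 + 2 * √19 + 2 * √3 := by
  unfold val; rw [fw32, fw22, fw13]; push_cast; ring
theorem val422 : val 4 2 2 = 2 * √21 + 4 * √7 + 2 * √3 := by
  unfold val; rw [fw42, fw22, fw14]; push_cast; ring
theorem val332 : val 3 3 2 = 3 * √3 + 2 * √19 + 2 * √13 := by
  unfold val; rw [fw33, fw32, fw13]; push_cast; ring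
theorem val432 : val 4 3 2 = 2 * √21 + √13 + 2 * √7 + √19 + √37 := by
  unfold val; rw [fw43, fw32, fw42, fw14, fw13]; push_cast; ring
theorem val333 : val 3 3 3 = 9 * √3 + 3 * √13 := by
  unfold val; rw [fw33, fw13]; push_cast; ring
theorem val443 : val 4 4 3 = 4 * √21 + √13 + 2 * √37 + 4 * √3 := by
  unfold val; rw [fw44, fw43, fw14, fw13]; push_cast; ring

theorem case3 (h : ChemUni G) (hn : Fintype.card V = 3) :
    EUS G ≤ 6 * √3 ∧ (EUS G = 6 * √3 ↔ Tri G 2 2 2) := by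
  have hc := cnt_eq G h (by omega)
  rcases small G h (by omega) with ⟨a, b, c, h1, h2, h3, h4, h5, ht, hE⟩ | ⟨h1, h2, h3⟩
  · obtain ⟨rfl, rfl, rfl⟩ : a = 2 ∧ b = 2 ∧ c = 2 := by omega
    rw [hE, val222]
    exact ⟨le_refl _, fun _ => ht, fun _ => rfl⟩
  · omega

theorem rough {n p q : ℕ} {x : ℝ} (hx : x ≤ AA / 3 * (n : ℝ) - (L2 * (p : ℝ) + L3 * (q : ℝ))) :
    x ≤ 5.3646 * (n : ℝ) - 1.708 * ((p + q : ℕ) : ℝ) := by
  have h1 := r3u
  have h2 := r21u
  have h3 := L2_bd.1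
  have h4 := L3_bd.1
  have hA : AA / 3 ≤ 5.3646 := by unfold AA; norm_num at *; linarith
  have hn : (0 : ℝ) ≤ n := Nat.cast_nonneg n
  have hp : (0 : ℝ) ≤ p := Nat.cast_nonneg p
  have hq : (0 : ℝ) ≤ q := Nat.cast_nonneg q
  have e1 : 1.708 * (p : ℝ) ≤ L2 * (p : ℝ) := mul_le_mul_of_nonneg_right h3.le hp
  have e2 : 1.708 * (q : ℝ) ≤ L3 * (q : ℝ) := mul_le_mul_of_nonneg_right (by linarith) hq
  have e3 : AA / 3 * (n : ℝ) ≤ 5.3646 * (n : ℝ) := mul_le_mul_of_nonneg_right hA hn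
  push_cast
  linarith

theorem case4 (h : ChemUni G) (hn : Fintype.card V = 4) :
    EUS G ≤ √13 + 2 * √19 + 2 * √3 ∧ (EUS G = √13 + 2 * √19 + 2 * √3 ↔ Tri G 3 2 2) := by
  have hc := cnt_eq G h (by omega)
  rcases small G h (by omega) with ⟨a, b, c, h1, h2, h3, h4, h5, ht, hE⟩ | ⟨h1, h2, h3⟩
  · obtain ⟨rfl, rfl, rfl⟩ : a = 3 ∧ b = 2 ∧ c = 2 := by omega
    rw [hE, val322]
    exact ⟨le_refl _, fun _ => ht, fun _ => rfl⟩
  · have hr := rough h2
    have hpq : 4 ≤ cnt G 2 + cnt G 3 := by omega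
    have hpq' : (4 : ℝ) ≤ ((cnt G 2 + cnt G 3 : ℕ) : ℝ) := by exact_mod_cast hpq
    rw [hn] at hr
    have i1 := r13l
    have i2 := r19l
    have i3 := r3l
    have hlt : EUS G < √13 + 2 * √19 + 2 * √3 := by norm_num at *; linarith
    exact ⟨hlt.le, fun heq => absurd heq hlt.ne, fun ht => absurd ht (h3 _ _ _)⟩

theorem case5 (h : ChemUni G) (hn : Fintype.card V = 5) :
    EUS G ≤ 2 * √21 + 4 * √7 + 2 * √3 ∧ (EUS G = 2 * √21 + 4 * √7 + 2 * √3 ↔ Tri G 4 2 2) := by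
  have hc := cnt_eq G h (by omega)
  have i1 := r21l
  have i2 := r7l
  have i3 := r3l
  have i4 := r3u
  have i5 := r19u
  have i6 := r13u
  rcases small G h (by omega) with ⟨a, b, c, h1, h2, h3, h4, h5, ht, hE⟩ | ⟨h1, h2, h3⟩
  · have habc : (a = 4 ∧ b = 2 ∧ c = 2) ∨ (a = 3 ∧ b = 3 ∧ c = 2) := by omega
    rcases habc with ⟨rfl, rfl, rfl⟩ | ⟨rfl, rfl, rfl⟩
    · rw [hE, val422]
      exact ⟨le_refl _, fun _ => ht, fun _ => rfl⟩
    · rw [val332] at hE
      have hlt : EUS G < 2 * √21 + 4 * √7 + 2 * √3 := by rw [hE]; norm_num at *; linarith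
      refine ⟨hlt.le, fun heq => absurd heq hlt.ne, fun ht' => ?_⟩
      obtain ⟨hE', _⟩ := tri_data G h (by omega) ht'
      rw [hE', val422]
  · have hr := rough h2
    have hpq : 3 ≤ cnt G 2 + cnt G 3 := by omega
    have hpq' : (3 : ℝ) ≤ ((cnt G 2 + cnt G 3 : ℕ) : ℝ) := by exact_mod_cast hpq
    rw [hn] at hr
    have hlt : EUS G < 2 * √21 + 4 * √7 + 2 * √3 := by norm_num at *; linarith
    exact ⟨hlt.le, fun heq => absurd heq hlt.ne, fun ht => absurd ht (h3 _ _ _)⟩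

theorem case6 (h : ChemUni G) (hn : Fintype.card V = 6) :
    EUS G ≤ 2 * √21 + √13 + 2 * √7 + √19 + √37 ∧
      (EUS G = 2 * √21 + √13 + 2 * √7 + √19 + √37 ↔ Tri G 4 3 2) := by
  have hc := cnt_eq G h (by omega)
  have i1 := r21l
  have i2 := r7l
  have i3 := r3l
  have i4 := r3u
  have i5 := r19l
  have i6 := r13u
  have i7 := r13l
  have i8 := r37l
  rcases small G h (by omega) with ⟨a, b, c, h1, h2, h3, h4, h5, ht, hE⟩ | ⟨h1, h2, h3⟩
  · have habc : (a = 4 ∧ b = 3 ∧ c = 2) ∨ (a = 3 ∧ b = 3 ∧ c = 3) := by omega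
    rcases habc with ⟨rfl, rfl, rfl⟩ | ⟨rfl, rfl, rfl⟩
    · rw [hE, val432]
      exact ⟨le_refl _, fun _ => ht, fun _ => rfl⟩
    · rw [val333] at hE
      have hlt : EUS G < 2 * √21 + √13 + 2 * √7 + √19 + √37 := by
        rw [hE]; norm_num at *; linarith
      refine ⟨hlt.le, fun heq => absurd heq hlt.ne, fun ht' => ?_⟩
      obtain ⟨hE', _⟩ := tri_data G h (by omega) ht'
      rw [hE', val432]
  · have hr := rough h2
    have hpq : 3 ≤ cnt G 2 + cnt G 3 := by omega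
    have hpq' : (3 : ℝ) ≤ ((cnt G 2 + cnt G 3 : ℕ) : ℝ) := by exact_mod_cast hpq
    rw [hn] at hr
    have hlt : EUS G < 2 * √21 + √13 + 2 * √7 + √19 + √37 := by norm_num at *; linarith
    exact ⟨hlt.le, fun heq => absurd heq hlt.ne, fun ht => absurd ht (h3 _ _ _)⟩

theorem case8 (h : ChemUni G) (hn : Fintype.card V = 8) :
    EUS G ≤ 4 * √21 + √13 + 2 * √37 + 4 * √3 ∧
      (EUS G = 4 * √21 + √13 + 2 * √37 + 4 * √3 ↔ Tri G 4 4 3) := by
  have hc := cnt_eq G h (by omega)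
  have i1 := r21l
  have i3 := r3l
  have i7 := r13l
  have i8 := r37l
  rcases small G h (by omega) with ⟨a, b, c, h1, h2, h3, h4, h5, ht, hE⟩ | ⟨h1, h2, h3⟩
  · obtain ⟨rfl, rfl, rfl⟩ : a = 4 ∧ b = 4 ∧ c = 3 := by omega
    rw [hE, val443]
    exact ⟨le_refl _, fun _ => ht, fun _ => rfl⟩
  · have hr := rough h2
    have hpq : 2 ≤ cnt G 2 + cnt G 3 := by omega
    have hpq' : (2 : ℝ) ≤ ((cnt G 2 + cnt G 3 : ℕ) : ℝ) := by exact_mod_cast hpq
    rw [hn] at hr
    have hlt : EUS G < 4 * √21 + √13 + 2 * √37 + 4 * √3 := by norm_num at *; linarith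
    exact ⟨hlt.le, fun heq => absurd heq hlt.ne, fun ht => absurd ht (h3 _ _ _)⟩

theorem upper (h : ChemUni G) (h3 : 3 ≤ Fintype.card V) :
    EUS G ≤ M (Fintype.card V) ∧ (EUS G = M (Fintype.card V) ↔ Ext (Fintype.card V) G) := by
  unfold M Ext
  split_ifs with c3 c4 c5 c6 c8 d0 d1
  · exact case3 G h c3
  · exact case4 G h c4
  · exact case5 G h c5
  · exact case6 G h c6
  · exact case8 G h c8
  · exact large0 G h h3 d0
  · exact large1 G h h3 d1
  · exact large2 G h h3 (by omega)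

end Pool.Agent.R866.EUS
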