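import Mathlib
import Pool.Agent.R866.EUS.Main

/-!
# The Euler Sombor index of chemical unicyclic graphs: existence of extremal graphs
-/

namespace Pool.Agent.R866.EUS

open Finset
open scoped Classical

/-- The graph on `Fin n` of a parent function. -/
def PG (n : ℕ) (p : ℕ → ℕ) : SimpleGraph (Fin n) where
  Adj u v := u ≠ v ∧ (p u = v ∨ p v = u)
  symm := ⟨fun _ _ h => ⟨h.1.symm, h.2.symm⟩⟩
  loopless := ⟨fun _ h => h.1 rfl⟩

/-- Parent functions: a triangle `0, 1, 2` and `p v < v` for `v ≥ 3`. -/
structure Good (p : ℕ → ℕ) : Prop where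
  p0 : p 0 = 1
  p1 : p 1 = 2
  p2 : p 2 = 0
  p3 : ∀ v, 3 ≤ v → p v < v

theorem Good.lt {p : ℕ → ℕ} (hp : Good p) {n : ℕ} (hn : 3 ≤ n) {v : ℕ} (hv : v < n) :
    p v < n := by
  rcases Nat.lt_or_ge v 3 with h | h
  · have h0 := hp.p0
    have h1 := hp.p1
    have h2 := hp.p2
    interval_cases v <;> omega
  · have := hp.p3 v h; omega

theorem Good.ne {p : ℕ → ℕ} (hp : Good p) (v : ℕ) : p v ≠ v := by
  rcases Nat.lt_or_ge v 3 with h | h
  · have h0 := hp.p0
    have h1 := hp.p1
    have h2 := hp.p2
    interval_cases v <;> omega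
  · have := hp.p3 v h; omega

theorem Good.ne2 {p : ℕ → ℕ} (hp : Good p) (v : ℕ) : p (p v) ≠ v := by
  have h0 := hp.p0
  have h1 := hp.p1
  have h2 := hp.p2
  rcases Nat.lt_or_ge v 3 with h | h
  · interval_cases v
    · rw [h0, h1]; decide
    · rw [h1, h2]; decide
    · rw [h2, h0]; decide
  · have h3 := hp.p3 v h
    rcases Nat.lt_or_ge (p v) 3 with h' | h'
    · generalize p v = w at h3 h' ⊢
      interval_cases w <;> omega
    · have := hp.p3 _ h'; omega

theorem PG_connected {p : ℕ → ℕ} (hp : Good p) {n : ℕ} (hn : 3 ≤ n) : (PG n p).Connected := by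
  have key : ∀ v : ℕ, ∀ hv : v < n, (PG n p).Reachable ⟨0, by omega⟩ ⟨v, hv⟩ := by
    intro v
    induction v using Nat.strong_induction_on with
    | _ v ih =>
      intro hv
      rcases Nat.lt_or_ge v 3 with h | h
      · interval_cases v
        · exact SimpleGraph.Reachable.refl _
        · apply SimpleGraph.Adj.reachable
          exact ⟨by simp, Or.inl (by simp [hp.p0])⟩
        · apply SimpleGraph.Adj.reachable
          exact ⟨by simp, Or.inr (by simp [hp.p2])⟩
      · have hlt := hp.p3 v h
        refine (ih (p v) hlt (by omega)).trans ?_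
        apply SimpleGraph.Adj.reachable
        refine ⟨?_, Or.inr rfl⟩
        intro heq
        have := congrArg Fin.val heq
        simp at this
        omega
  have : Nonempty (Fin n) := ⟨⟨0, by omega⟩⟩
  rw [SimpleGraph.connected_iff]
  refine ⟨fun u v => ?_, this⟩
  exact (key u.1 u.2).symm.trans (key v.1 v.2)

theorem PG_deg {p : ℕ → ℕ} (hp : Good p) {n : ℕ} (hn : 3 ≤ n) (v : Fin n) :
    deg (PG n p) v = 1 + #{u : Fin n | p u = v} := by
  have hset : (univ.filter fun w : Fin n => (PG n p).Adj v w)
      = insert (⟨p v, hp.lt hn v.2⟩ : Fin n) (univ.filter fun u : Fin n => p u = v) := by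
    ext w
    rw [Finset.mem_insert, Finset.mem_filter, Finset.mem_filter]
    constructor
    · rintro ⟨_, _, h | h⟩
      · left; exact Fin.ext h.symm
      · right; exact ⟨Finset.mem_univ _, h⟩
    · rintro (rfl | ⟨_, h⟩)
      · refine ⟨Finset.mem_univ _, ?_, Or.inl rfl⟩
        intro heq
        have := congrArg Fin.val heq
        exact hp.ne v.1 this.symm
      · refine ⟨Finset.mem_univ _, ?_, Or.inr h⟩
        rintro rfl
        exact hp.ne _ h
  unfold deg
  rw [hset, Finset.card_insert_of_notMem, add_comm]
  simp only [Finset.mem_filter, Finset.mem_univ, true_and]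
  exact hp.ne2 v.1

theorem PG_deg_eq {p : ℕ → ℕ} (hp : Good p) {n : ℕ} (hn : 3 ≤ n) {v : ℕ} (hv : v < n)
    (S : Finset ℕ) (hS : ∀ u, u ∈ S ↔ u < n ∧ p u = v) :
    deg (PG n p) ⟨v, hv⟩ = 1 + #S := by
  rw [PG_deg hp hn ⟨v, hv⟩]
  congr 1
  have : (univ.filter fun u : Fin n => p u = v).image Fin.val = S := by
    ext u
    rw [hS]
    simp only [Finset.mem_image, Finset.mem_filter, Finset.mem_univ, true_and]
    constructor
    · rintro ⟨a, ha, rfl⟩
      exact ⟨a.2, ha⟩
    · rintro ⟨h1, h2⟩
      exact ⟨⟨u, h1⟩, h2, rfl⟩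
  rw [← this, Finset.card_image_of_injective _ Fin.val_injective]

theorem PG_edges {p : ℕ → ℕ} (hp : Good p) {n : ℕ} (hn : 3 ≤ n) :
    #(PG n p).edgeFinset = n := by
  have h1 := sum_deg (PG n p)
  have h2 : ∑ v : Fin n, #{u : Fin n | p u = v} = n := by
    have e : ∀ v : Fin n, #{u : Fin n | p u = v}
        = ∑ u : Fin n, if (⟨p u, hp.lt hn u.2⟩ : Fin n) = v then 1 else 0 := by
      intro v
      rw [Finset.card_filter]
      refine Finset.sum_congr rfl fun u _ => ?_
      simp only [Fin.ext_iff]
    rw [Finset.sum_congr rfl fun v _ => e v, Finset.sum_comm]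
    simp
  rw [Finset.sum_congr rfl fun v _ => PG_deg hp hn v, Finset.sum_add_distrib, h2] at h1
  simp at h1
  have h3 : #(PG n p).edgeFinset = n := by
    omega
  exact h3

theorem PG_chem {p : ℕ → ℕ} (hp : Good p) {n : ℕ} (hn : 3 ≤ n)
    (hd : ∀ v, deg (PG n p) v ≤ 4) : ChemUni (PG n p) := by
  refine ⟨PG_connected hp hn, ?_, hd⟩
  rw [PG_edges hp hn, Fintype.card_fin]

/-! ### The parent functions -/

def pa (v : ℕ) : ℕ :=
  if v = 0 then 1 else if v = 1 then 2 else if v = 2 then 0 else
    if v < 9 then (v - 3) / 2 else v / 3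

def pb (v : ℕ) : ℕ :=
  if v = 0 then 1 else if v = 1 then 2 else if v = 2 then 0 else
    if v < 5 then 1 else if v < 7 then 2 else (v + 2) / 3

def pc (v : ℕ) : ℕ :=
  if v = 0 then 1 else if v = 1 then 2 else if v = 2 then 0 else
    if v = 3 then 0 else if v < 6 then 1 else if v < 8 then 2 else (v + 1) / 3

theorem good_pa : Good pa := ⟨by decide, by decide, by decide, fun v h => by
  unfold pa; split_ifs <;> omega⟩
theorem good_pb : Good pb := ⟨by decide, by decide, by decide, fun v h => by
  unfold pb; split_ifs <;> omega⟩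
theorem good_pc : Good pc := ⟨by decide, by decide, by decide, fun v h => by
  unfold pc; split_ifs <;> omega⟩

theorem deg_pa {n : ℕ} (hn : 9 ≤ n) (h0 : n % 3 = 0) (v : Fin n) :
    deg (PG n pa) v = 1 ∨ deg (PG n pa) v = 4 := by
  obtain ⟨v, hv⟩ := v
  rcases Nat.lt_or_ge v 3 with h | h
  · right
    interval_cases v
    · rw [PG_deg_eq good_pa (by omega) _ {2, 3, 4}]
      · rfl
      · intro u; unfold pa; simp only [Finset.mem_insert, Finset.mem_singleton]
        split_ifs <;> (try simp only [and_false, and_true, iff_false]) <;> omega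
    · rw [PG_deg_eq good_pa (by omega) _ {0, 5, 6}]
      · rfl
      · intro u; unfold pa; simp only [Finset.mem_insert, Finset.mem_singleton]
        split_ifs <;> (try simp only [and_false, and_true, iff_false]) <;> omega
    · rw [PG_deg_eq good_pa (by omega) _ {1, 7, 8}]
      · rfl
      · intro u; unfold pa; simp only [Finset.mem_insert, Finset.mem_singleton]
        split_ifs <;> (try simp only [and_false, and_true, iff_false]) <;> omega
  · rcases Nat.lt_or_ge (3 * v) n with h' | h'
    · right
      rw [PG_deg_eq good_pa (by omega) _ {3 * v, 3 * v + 1, 3 * v + 2}]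
      · rw [Finset.card_eq_three.mpr ⟨3 * v, 3 * v + 1, 3 * v + 2, by omega, by omega, by omega,
          rfl⟩]
      · intro u; unfold pa; simp only [Finset.mem_insert, Finset.mem_singleton]
        split_ifs <;> (try simp only [and_false, and_true, iff_false]) <;> omega
    · left
      rw [PG_deg_eq good_pa (by omega) _ ∅]
      · rfl
      · intro u; unfold pa; simp only [Finset.notMem_empty, false_iff]
        split_ifs <;> (try simp only [and_false, and_true, iff_false]) <;> omega

theorem deg_pb {n : ℕ} (hn : 7 ≤ n) (h0 : n % 3 = 1) (v : Fin n) :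
    (v.1 = 0 ∧ deg (PG n pb) v = 2) ∨ (v.1 ≠ 0 ∧ deg (PG n pb) v = 1) ∨
      (v.1 ≠ 0 ∧ deg (PG n pb) v = 4) := by
  obtain ⟨v, hv⟩ := v
  rcases Nat.lt_or_ge v 3 with h | h
  · interval_cases v
    · left
      refine ⟨rfl, ?_⟩
      rw [PG_deg_eq good_pb (by omega) _ {2}]
      · rfl
      · intro u; unfold pb; simp only [Finset.mem_singleton]
        split_ifs <;> (try simp only [and_false, and_true, iff_false]) <;> omega
    · right; right
      refine ⟨by simp, ?_⟩
      rw [PG_deg_eq good_pb (by omega) _ {0, 3, 4}]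
      · rfl
      · intro u; unfold pb; simp only [Finset.mem_insert, Finset.mem_singleton]
        split_ifs <;> (try simp only [and_false, and_true, iff_false]) <;> omega
    · right; right
      refine ⟨by simp, ?_⟩
      rw [PG_deg_eq good_pb (by omega) _ {1, 5, 6}]
      · rfl
      · intro u; unfold pb; simp only [Finset.mem_insert, Finset.mem_singleton]
        split_ifs <;> (try simp only [and_false, and_true, iff_false]) <;> omega
  · rcases Nat.lt_or_ge (3 * v) n with h' | h'
    · right; right
      refine ⟨by simp only [ne_eq]; omega, ?_⟩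
      rw [PG_deg_eq good_pb (by omega) _ {3 * v, 3 * v - 1, 3 * v - 2}]
      · rw [Finset.card_eq_three.mpr ⟨3 * v, 3 * v - 1, 3 * v - 2, by omega, by omega, by omega,
          rfl⟩]
      · intro u; unfold pb; simp only [Finset.mem_insert, Finset.mem_singleton]
        split_ifs <;> (try simp only [and_false, and_true, iff_false]) <;> omega
    · right; left
      refine ⟨by simp only [ne_eq]; omega, ?_⟩
      rw [PG_deg_eq good_pb (by omega) _ ∅]
      · rfl
      · intro u; unfold pb; simp only [Finset.notMem_empty, false_iff]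
        split_ifs <;> (try simp only [and_false, and_true, iff_false]) <;> omega

theorem deg_pc {n : ℕ} (hn : 11 ≤ n) (h0 : n % 3 = 2) (v : Fin n) :
    (v.1 = 0 ∧ deg (PG n pc) v = 3) ∨ (4 ≤ v.1 ∧ deg (PG n pc) v = 1) ∨
      (v.1 ≠ 0 ∧ deg (PG n pc) v = 4) := by
  obtain ⟨v, hv⟩ := v
  rcases Nat.lt_or_ge v 3 with h | h
  · interval_cases v
    · left
      refine ⟨rfl, ?_⟩
      rw [PG_deg_eq good_pc (by omega) _ {2, 3}]
      · rfl
      · intro u; unfold pc; simp only [Finset.mem_insert, Finset.mem_singleton]
        split_ifs <;> (try simp only [and_false, and_true, iff_false]) <;> omega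
    · right; right
      refine ⟨by simp, ?_⟩
      rw [PG_deg_eq good_pc (by omega) _ {0, 4, 5}]
      · rfl
      · intro u; unfold pc; simp only [Finset.mem_insert, Finset.mem_singleton]
        split_ifs <;> (try simp only [and_false, and_true, iff_false]) <;> omega
    · right; right
      refine ⟨by simp, ?_⟩
      rw [PG_deg_eq good_pc (by omega) _ {1, 6, 7}]
      · rfl
      · intro u; unfold pc; simp only [Finset.mem_insert, Finset.mem_singleton]
        split_ifs <;> (try simp only [and_false, and_true, iff_false]) <;> omega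
  · rcases Nat.lt_or_ge (3 * v) n with h' | h'
    · right; right
      refine ⟨by simp only [ne_eq]; omega, ?_⟩
      rw [PG_deg_eq good_pc (by omega) _ {3 * v, 3 * v - 1, 3 * v + 1}]
      · rw [Finset.card_eq_three.mpr ⟨3 * v, 3 * v - 1, 3 * v + 1, by omega, by omega, by omega,
          rfl⟩]
      · intro u; unfold pc; simp only [Finset.mem_insert, Finset.mem_singleton]
        split_ifs <;> (try simp only [and_false, and_true, iff_false]) <;> omega
    · right; left
      refine ⟨by simp only; omega, ?_⟩
      rw [PG_deg_eq good_pc (by omega) _ ∅]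
      · rfl
      · intro u; unfold pc; simp only [Finset.notMem_empty, false_iff]
        split_ifs <;> (try simp only [and_false, and_true, iff_false]) <;> omega

theorem tri_PG {p : ℕ → ℕ} (hp : Good p) {n : ℕ} (hn : 3 ≤ n) (S0 S1 S2 : Finset ℕ)
    (h0 : ∀ u, u ∈ S0 ↔ u < n ∧ p u = 0) (h1 : ∀ u, u ∈ S1 ↔ u < n ∧ p u = 1)
    (h2 : ∀ u, u ∈ S2 ↔ u < n ∧ p u = 2) (hl : ∀ v, 3 ≤ v → ∀ u, u < n → p u ≠ v)
    (c0 : #S0 ≤ 3) (c1 : #S1 ≤ 3) (c2 : #S2 ≤ 3) :
    ChemUni (PG n p) ∧ Tri (PG n p) (1 + #S0) (1 + #S1) (1 + #S2) := by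
  have d0 := PG_deg_eq hp hn (show 0 < n by omega) S0 h0
  have d1 := PG_deg_eq hp hn (show 1 < n by omega) S1 h1
  have d2 := PG_deg_eq hp hn (show 2 < n by omega) S2 h2
  have dl : ∀ v (hv : v < n), 3 ≤ v → deg (PG n p) ⟨v, hv⟩ = 1 := by
    intro v hv h3
    rw [PG_deg_eq hp hn hv ∅]
    · rfl
    · intro u
      simp only [Finset.notMem_empty, false_iff, not_and]
      exact hl v h3 u
  constructor
  · apply PG_chem hp hn
    rintro ⟨v, hv⟩
    rcases Nat.lt_or_ge v 3 with h | h
    · interval_cases v
      · rw [d0]; omega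
      · rw [d1]; omega
      · rw [d2]; omega
    · rw [dl v hv h]; omega
  · refine ⟨⟨0, by omega⟩, ⟨1, by omega⟩, ⟨2, by omega⟩, ⟨by simp, Or.inl (by simp [hp.p0])⟩,
      ⟨by simp, Or.inl (by simp [hp.p1])⟩, ⟨by simp, Or.inr (by simp [hp.p2])⟩, d0, d1, d2, ?_⟩
    rintro ⟨v, hv⟩ e0 e1 e2
    apply dl
    by_contra hlt
    push Not at hlt
    interval_cases v
    · exact e0 rfl
    · exact e1 rfl
    · exact e2 rfl

def pd (v : ℕ) : ℕ := if v = 0 then 1 else if v = 1 then 2 else if v = 2 then 0 else 2

def pe (v : ℕ) : ℕ :=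
  if v = 0 then 1 else if v = 1 then 2 else if v = 2 then 0 else if v = 3 then 1 else 2

theorem good_pd : Good pd := ⟨by decide, by decide, by decide, fun v h => by
  unfold pd; split_ifs <;> omega⟩
theorem good_pe : Good pe := ⟨by decide, by decide, by decide, fun v h => by
  unfold pe; split_ifs <;> omega⟩

theorem exists_ext {n : ℕ} (hn : 3 ≤ n) : ∃ G : SimpleGraph (Fin n), ChemUni G ∧ Ext n G := by
  by_cases c3 : n = 3
  · subst c3
    obtain ⟨h1, h2⟩ := tri_PG good_pd (le_refl 3) {2} {0} {1}
      (by intro u; unfold pd; simp only [Finset.mem_singleton]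
          split_ifs <;> (try simp only [and_false, and_true, iff_false]) <;> omega)
      (by intro u; unfold pd; simp only [Finset.mem_singleton]
          split_ifs <;> (try simp only [and_false, and_true, iff_false]) <;> omega)
      (by intro u; unfold pd; simp only [Finset.mem_singleton]
          split_ifs <;> (try simp only [and_false, and_true, iff_false]) <;> omega)
      (by intro v hv u hu; unfold pd; split_ifs <;> omega)
      (by decide) (by decide) (by decide)
    exact ⟨_, h1, by simpa [Ext] using h2⟩
  by_cases c4 : n = 4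
  · subst c4
    obtain ⟨h1, h2⟩ := tri_PG good_pd (show 3 ≤ 4 by omega) {2} {0} {1, 3}
      (by intro u; unfold pd; simp only [Finset.mem_singleton]
          split_ifs <;> (try simp only [and_false, and_true, iff_false]) <;> omega)
      (by intro u; unfold pd; simp only [Finset.mem_singleton]
          split_ifs <;> (try simp only [and_false, and_true, iff_false]) <;> omega)
      (by intro u; unfold pd; simp only [Finset.mem_insert, Finset.mem_singleton]
          split_ifs <;> (try simp only [and_false, and_true, iff_false]) <;> omega)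
      (by intro v hv u hu; unfold pd; split_ifs <;> omega)
      (by decide) (by decide) (by decide)
    have h3 := ((h2.swap23).swap12)
    exact ⟨_, h1, by simpa [Ext] using h3⟩
  by_cases c5 : n = 5
  · subst c5
    obtain ⟨h1, h2⟩ := tri_PG good_pd (show 3 ≤ 5 by omega) {2} {0} {1, 3, 4}
      (by intro u; unfold pd; simp only [Finset.mem_singleton]
          split_ifs <;> (try simp only [and_false, and_true, iff_false]) <;> omega)
      (by intro u; unfold pd; simp only [Finset.mem_singleton]
          split_ifs <;> (try simp only [and_false, and_true, iff_false]) <;> omega)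
      (by intro u; unfold pd; simp only [Finset.mem_insert, Finset.mem_singleton]
          split_ifs <;> (try simp only [and_false, and_true, iff_false]) <;> omega)
      (by intro v hv u hu; unfold pd; split_ifs <;> omega)
      (by decide) (by decide) (by decide)
    have h3 := ((h2.swap23).swap12)
    exact ⟨_, h1, by simpa [Ext] using h3⟩
  by_cases c6 : n = 6
  · subst c6
    obtain ⟨h1, h2⟩ := tri_PG good_pe (show 3 ≤ 6 by omega) {2} {0, 3} {1, 4, 5}
      (by intro u; unfold pe; simp only [Finset.mem_singleton]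
          split_ifs <;> (try simp only [and_false, and_true, iff_false]) <;> omega)
      (by intro u; unfold pe; simp only [Finset.mem_insert, Finset.mem_singleton]
          split_ifs <;> (try simp only [and_false, and_true, iff_false]) <;> omega)
      (by intro u; unfold pe; simp only [Finset.mem_insert, Finset.mem_singleton]
          split_ifs <;> (try simp only [and_false, and_true, iff_false]) <;> omega)
      (by intro v hv u hu; unfold pe; split_ifs <;> omega)
      (by decide) (by decide) (by decide)
    have h3 := (((h2.swap12).swap23).swap12)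
    exact ⟨_, h1, by simpa [Ext] using h3⟩
  by_cases c8 : n = 8
  · subst c8
    obtain ⟨h1, h2⟩ := tri_PG good_pc (show 3 ≤ 8 by omega) {2, 3} {0, 4, 5} {1, 6, 7}
      (by intro u; unfold pc; simp only [Finset.mem_insert, Finset.mem_singleton]
          split_ifs <;> (try simp only [and_false, and_true, iff_false]) <;> omega)
      (by intro u; unfold pc; simp only [Finset.mem_insert, Finset.mem_singleton]
          split_ifs <;> (try simp only [and_false, and_true, iff_false]) <;> omega)
      (by intro u; unfold pc; simp only [Finset.mem_insert, Finset.mem_singleton]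
          split_ifs <;> (try simp only [and_false, and_true, iff_false]) <;> omega)
      (by intro v hv u hu; unfold pc; split_ifs <;> omega)
      (by decide) (by decide) (by decide)
    have h3 := ((h2.swap12).swap23)
    exact ⟨_, h1, by simpa [Ext] using h3⟩
  have hr : n % 3 = 0 ∨ n % 3 = 1 ∨ n % 3 = 2 := by omega
  rcases hr with d | d | d
  · have hdeg := deg_pa (n := n) (by omega) d
    refine ⟨PG n pa, PG_chem good_pa hn (fun v => by rcases hdeg v with h | h <;> omega), ?_⟩
    simp only [Ext, c3, c4, c5, c6, c8, d, if_false, if_true]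
    refine ⟨(cnt_zero _).mpr fun v => ?_, (cnt_zero _).mpr fun v => ?_⟩ <;>
      rcases hdeg v with h | h <;> omega
  · have hdeg := deg_pb (n := n) (by omega) d
    refine ⟨PG n pb, PG_chem good_pb hn
      (fun v => by rcases hdeg v with ⟨_, h⟩ | ⟨_, h⟩ | ⟨_, h⟩ <;> omega), ?_⟩
    have hd0 : ¬ (n % 3 = 0) := by omega
    simp only [Ext, c3, c4, c5, c6, c8, hd0, d, if_false, if_true]
    refine ⟨?_, (cnt_zero _).mpr fun v => ?_, ?_⟩
    · unfold cnt
      rw [Finset.card_eq_one]
      refine ⟨⟨0, by omega⟩, ?_⟩
      ext v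
      rw [Finset.mem_filter, Finset.mem_singleton]
      constructor
      · rintro ⟨_, h⟩
        apply Fin.ext
        rcases hdeg v with ⟨h0, _⟩ | ⟨_, h'⟩ | ⟨_, h'⟩
        · exact h0
        · omega
        · omega
      · rintro rfl
        refine ⟨Finset.mem_univ _, ?_⟩
        rcases hdeg ⟨0, by omega⟩ with ⟨_, h'⟩ | ⟨h', _⟩ | ⟨h', _⟩
        · exact h'
        · exact absurd rfl h'
        · exact absurd rfl h'
    · rcases hdeg v with ⟨_, h⟩ | ⟨_, h⟩ | ⟨_, h⟩ <;> omega
    · intro u v huv hu
      have hu0 : u.1 = 0 := by rcases hdeg u with ⟨h, _⟩ | ⟨_, h⟩ | ⟨_, h⟩ <;> omega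
      obtain ⟨hne, h⟩ := huv
      have hv : v.1 = 1 ∨ v.1 = 2 := by
        rcases h with h | h
        · left
          rw [hu0] at h
          rw [← h]; rfl
        · right
          rw [hu0] at h
          unfold pb at h
          split_ifs at h <;> omega
      obtain ⟨v, hvn⟩ := v
      rcases hv with hv | hv
      · simp only at hv
        subst hv
        rw [PG_deg_eq good_pb (by omega) _ {0, 3, 4}]
        · rfl
        · intro u; unfold pb; simp only [Finset.mem_insert, Finset.mem_singleton]
          split_ifs <;> (try simp only [and_false, and_true, iff_false]) <;> omega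
      · simp only at hv
        subst hv
        rw [PG_deg_eq good_pb (by omega) _ {1, 5, 6}]
        · rfl
        · intro u; unfold pb; simp only [Finset.mem_insert, Finset.mem_singleton]
          split_ifs <;> (try simp only [and_false, and_true, iff_false]) <;> omega
  · have hdeg := deg_pc (n := n) (by omega) d
    refine ⟨PG n pc, PG_chem good_pc hn
      (fun v => by rcases hdeg v with ⟨_, h⟩ | ⟨_, h⟩ | ⟨_, h⟩ <;> omega), ?_⟩
    have hd0 : ¬ (n % 3 = 0) := by omega
    have hd1 : ¬ (n % 3 = 1) := by omega
    simp only [Ext, c3, c4, c5, c6, c8, hd0, hd1, if_false]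
    refine ⟨(cnt_zero _).mpr fun v => ?_, ?_, ?_⟩
    · rcases hdeg v with ⟨_, h⟩ | ⟨_, h⟩ | ⟨_, h⟩ <;> omega
    · unfold cnt
      rw [Finset.card_eq_one]
      refine ⟨⟨0, by omega⟩, ?_⟩
      ext v
      rw [Finset.mem_filter, Finset.mem_singleton]
      constructor
      · rintro ⟨_, h⟩
        apply Fin.ext
        rcases hdeg v with ⟨h0, _⟩ | ⟨_, h'⟩ | ⟨_, h'⟩
        · exact h0
        · omega
        · omega
      · rintro rfl
        refine ⟨Finset.mem_univ _, ?_⟩
        rcases hdeg ⟨0, by omega⟩ with ⟨_, h'⟩ | ⟨h', _⟩ | ⟨h', _⟩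
        · exact h'
        · simp at h'
        · exact absurd rfl h'
    · intro u v huv hu
      have hu0 : u.1 = 0 := by rcases hdeg u with ⟨h, _⟩ | ⟨_, h⟩ | ⟨_, h⟩ <;> omega
      obtain ⟨hne, h⟩ := huv
      have hv : v.1 = 1 ∨ v.1 = 2 ∨ v.1 = 3 := by
        rcases h with h | h
        · left
          rw [hu0] at h
          rw [← h]; rfl
        · right
          rw [hu0] at h
          unfold pc at h
          split_ifs at h <;> omega
      rcases hdeg v with ⟨h1, _⟩ | ⟨h1, _⟩ | ⟨_, h'⟩
      · omega
      · omega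
      · exact h'

end Pool.Agent.R866.EUS
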